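import Pool.Agent.Helper93.L2.ABound
import Pool.Agent.Helper93.L2.VBound
import Pool.Agent.Helper93.L2.PhiBound
import Pool.Agent.Helper93.L2.FChi
import Pool.Agent.Helper93.L2.CauchyT
import Pool.Agent.Helper93.L2.Integ
import Pool.Agent.Helper93.L2.Stokes

/-!
# LN2-R14a (MP_730da0_ag): integrability of the sum over the branches

`sum_branches`: near a point off `P` the sum over `W z` is the sum over the local branches.
`sum_bound`: a pointwise bound over the branches gives a bound of the sum.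
-/

namespace Pool.Agent.Helper47.L2

open Pool.Agent.Helper2.LN Pool.Agent.Helper93.L2 MeasureTheory

/-- The sum over the range of an injective family. -/
theorem sum_range {N : ℕ} {M : Type} [AddCommMonoid M] (g : Fin N → ℂ) (hg : Function.Injective g)
    (f : ℂ → M) : ∑ᶠ w ∈ Set.range g, f w = ∑ j, f (g j) := by
  rw [finsum_mem_range hg, finsum_eq_sum_of_fintype]

/-- `phi p s` is continuous off the points `p j`. -/
theorem phi_contAt (p : Fin 4 → ℂ) (s x : ℂ) (hx : ∀ j, x ≠ p j) : ContinuousAt (phi p s) x := by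
  unfold phi
  refine ContinuousAt.div (by fun_prop) (by fun_prop) ?_
  exact Finset.prod_ne_zero_iff.2 fun j _ => sub_ne_zero.2 (hx j)

/-- Continuity of a sum over the branches. -/
theorem cont_sum {M : Type} [AddCommMonoid M] [TopologicalSpace M] [ContinuousAdd M]
    (P : Finset ℂ) (N : ℕ) (W : ℂ → Set ℂ) (a : ℂ → ℂ → ℂ) (hB : Branches P N W a)
    (G : ℂ → ℂ → ℂ → M)
    (hG : ∀ z ∉ P, ∀ w ∈ W z, ∀ b, ContinuousAt (fun x : ℂ × ℂ × ℂ => G x.1 x.2.1 x.2.2) (z, w, b)) :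
    ContinuousOn (fun z => ∑ᶠ w ∈ W z, G z w (a z w)) {z | z ∉ P} := by
  intro z₀ hz₀
  obtain ⟨r, hr, hPr, σ, hσd, hW, ha⟩ := hB z₀ hz₀
  have hz₀b : z₀ ∈ Metric.ball z₀ r := Metric.mem_ball_self hr
  have hev : ∀ᶠ z in nhds z₀, z ∈ Metric.ball z₀ r := Metric.ball_mem_nhds z₀ hr
  have heq : (fun z => ∑ᶠ w ∈ W z, G z w (a z w)) =ᶠ[nhds z₀]
      fun z => ∑ j, G z (σ j z) (deriv (σ j) z) := by
    filter_upwards [hev] with z hz
    rw [(hW z hz).2, sum_range _ (hW z hz).1]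
    exact Finset.sum_congr rfl fun j _ => by rw [ha z hz j]
  refine ContinuousAt.continuousWithinAt ?_
  refine ContinuousAt.congr ?_ heq.symm
  refine tendsto_finsetSum _ fun j _ => ?_
  have h1 : ContinuousAt (σ j) z₀ :=
    ((hσd j).differentiableAt (Metric.isOpen_ball.mem_nhds hz₀b)).continuousAt
  have h2 : ContinuousAt (deriv (σ j)) z₀ :=
    (((hσd j).deriv Metric.isOpen_ball).differentiableAt
      (Metric.isOpen_ball.mem_nhds hz₀b)).continuousAt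
  have h3 : σ j z₀ ∈ W z₀ := by
    rw [(hW z₀ hz₀b).2]
    exact ⟨j, rfl⟩
  have h4 := hG z₀ hz₀ (σ j z₀) h3 (deriv (σ j) z₀)
  exact ContinuousAt.comp (f := fun z => (z, σ j z, deriv (σ j) z)) h4
    (continuousAt_id.prodMk (h1.prodMk h2))

/-- A bound of a sum over the branches. -/
theorem sum_bound {M : Type} [SeminormedAddCommGroup M]
    (P : Finset ℂ) (N : ℕ) (W : ℂ → Set ℂ) (a : ℂ → ℂ → ℂ) (hB : Branches P N W a)
    (f : ℂ → M) (z : ℂ) (hz : z ∉ P) (B : ℝ) (hb : ∀ w ∈ W z, ‖f w‖ ≤ B) :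
    ‖∑ᶠ w ∈ W z, f w‖ ≤ N * B := by
  obtain ⟨r, hr, hPr, σ, hσd, hW, ha⟩ := hB z hz
  have hzb : z ∈ Metric.ball z r := Metric.mem_ball_self hr
  have h1 : ∀ j, ‖f (σ j z)‖ ≤ B := fun j => hb _ (by
    rw [(hW z hzb).2]
    exact ⟨j, rfl⟩)
  rw [(hW z hzb).2, sum_range _ (hW z hzb).1]
  calc ‖∑ j, f (σ j z)‖ ≤ ∑ j, ‖f (σ j z)‖ := norm_sum_le _ _
    _ ≤ ∑ _j : Fin N, B := Finset.sum_le_sum fun j _ => h1 j
    _ = N * B := by simp

/-- The pointwise bound of the integrand. -/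
theorem phi_ad_bound {k : ℕ} (hk : 3 ≤ k) (S : Sys k ℂ) (hol : HolSys S)
    (av : ∀ q ∈ Conf k, ∀ w ∈ S.F q, ∀ i, w ≠ q i) (q₀ : Fin k → ℂ) (hq : q₀ ∈ Conf k) (l : Fin k)
    (p : Fin 4 → ℂ) (hp : Function.Injective p) (hpq : ∀ j, ∃ i, i ≠ l ∧ q₀ i = p j) (s : ℂ) :
    ∃ C : ℝ, 0 < C ∧ ∀ z ∉ Pts q₀ l, ∀ w ∈ S.F (Qz q₀ l z),
      ‖phi p s w‖ * ‖ad S q₀ l z w‖ ^ 2 ≤ C * wt (Pts q₀ l) z ^ 2 := by
  obtain ⟨C, hC, hA⟩ := ad_bound hk S hol av q₀ hq l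
  obtain ⟨D, hD, hp'⟩ := phi_bound p hp s
  refine ⟨C ^ 2 * D, by positivity, fun z hz w hw => ?_⟩
  obtain ⟨j, hj⟩ := hp' w
  obtain ⟨i, hil, hij⟩ := hpq j
  have h1 := hA z hz w hw i hil
  rw [hij] at h1
  have h2 : ‖ad S q₀ l z w‖ ^ 2 ≤ (C * lg (w - p j) * wt (Pts q₀ l) z) ^ 2 :=
    pow_le_pow_left₀ (norm_nonneg _) h1 2
  calc ‖phi p s w‖ * ‖ad S q₀ l z w‖ ^ 2
      ≤ ‖phi p s w‖ * (C * lg (w - p j) * wt (Pts q₀ l) z) ^ 2 :=
        mul_le_mul_of_nonneg_left h2 (norm_nonneg _)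
    _ = (‖phi p s w‖ * lg (w - p j) ^ 2) * (C ^ 2 * wt (Pts q₀ l) z ^ 2) := by ring
    _ ≤ D * (C ^ 2 * wt (Pts q₀ l) z ^ 2) := mul_le_mul_of_nonneg_right hj (by positivity)
    _ = C ^ 2 * D * wt (Pts q₀ l) z ^ 2 := by ring

theorem int_phi {k : ℕ} (hk : 3 ≤ k) (S : Sys k ℂ) (hol : HolSys S) (hfin : Finite (S.F (base k)))
    (av : ∀ q ∈ Conf k, ∀ w ∈ S.F q, ∀ i, w ≠ q i) (q₀ : Fin k → ℂ) (hq : q₀ ∈ Conf k) (l : Fin k)
    (p : Fin 4 → ℂ) (hp : Function.Injective p) (hpq : ∀ j, ∃ i, i ≠ l ∧ q₀ i = p j) (s : ℂ) :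
    Integrable fun z => ∑ᶠ w ∈ S.F (Qz q₀ l z), ‖phi p s w‖ * ‖ad S q₀ l z w‖ ^ 2 := by
  have hB := slice_branches S hol hfin q₀ hq l
  obtain ⟨C, hC, hb⟩ := phi_ad_bound hk S hol av q₀ hq l p hp hpq s
  have hcont : ContinuousOn
      (fun z => ∑ᶠ w ∈ S.F (Qz q₀ l z), ‖phi p s w‖ * ‖ad S q₀ l z w‖ ^ 2)
      {z | z ∉ Pts q₀ l} := by
    refine cont_sum (Pts q₀ l) _ _ _ hB (fun _ w b => ‖phi p s w‖ * ‖b‖ ^ 2) ?_
    intro z hz w hw b
    have hne : ∀ j, w ≠ p j := by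
      intro j hj
      obtain ⟨i, hil, hij⟩ := hpq j
      refine av _ ((Qz_mem q₀ hq l z).2 hz) w hw i ?_
      unfold Qz
      rw [Function.update_of_ne hil, hij]
      exact hj
    have h0 : ContinuousAt (fun x : ℂ × ℂ × ℂ => x.2.1) (z, w, b) := by fun_prop
    have h1 : ContinuousAt (fun x : ℂ × ℂ × ℂ => phi p s x.2.1) (z, w, b) :=
      ContinuousAt.comp_of_eq (phi_contAt p s w hne) h0 rfl
    exact h1.norm.mul (ContinuousAt.pow (ContinuousAt.norm (by fun_prop)) 2)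
  have key : Integrable fun z => ((∑ᶠ w ∈ S.F (Qz q₀ l z),
      ‖phi p s w‖ * ‖ad S q₀ l z w‖ ^ 2 : ℝ) : ℂ) := by
    refine integrable_of_wt (Pts q₀ l) _ (Complex.continuous_ofReal.comp_continuousOn hcont)
      (Nat.card (S.F (base k)) * C) ?_
    intro z hz
    rw [Complex.norm_real, mul_assoc]
    refine sum_bound (Pts q₀ l) _ _ _ hB _ z hz _ fun w hw => ?_
    rw [Real.norm_of_nonneg (by positivity)]
    exact hb z hz w hw
  exact key.re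

end Pool.Agent.Helper47.L2
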